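import Pool.Agent.helper36.WE.Linear

/-!
# Short paths in Nielsen graphs of quadratic equations with a linear side

Let `E` be a quadratic word equation whose right side contains every variable at most once, and
assume that the variables that occur on both sides can be split into consecutive groups of at most
`c` variables (the groups appear in the same order on both sides).  The left side may contain
arbitrarily many further variables that occur twice in it.  Then every reachable pair of vertices
of the Nielsen graph is joined by a path of length at most `4 (2c+1)! (|E|+1)^2`.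
-/

namespace Pool.Agent.Results.MP_c8d30a_lc.LinearSide

open Pool.Agent.helper36.WE

set_option linter.unusedSectionVars false

variable {X A : Type} [DecidableEq X] [DecidableEq A]

attribute [local instance] lawfulBEq_sum

/-- A step that keeps the lengths of both sides. -/
def Reg (s s' : Eqn X A) : Prop := s'.1.length = s.1.length ∧ s'.2.length = s.2.length

/-- The first block of shared variables. -/
noncomputable def firstBlock (b : X → ℕ) (s : Eqn X A) : Finset X :=
  by
    classical
    exact (dbl s).filter (fun x => Shared s x ∧ ∀ z, Shared s z → b x ≤ b z)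

lemma mem_firstBlock {b : X → ℕ} {s : Eqn X A} (hq : Quadratic s) (x : X) :
    x ∈ firstBlock b s ↔ Shared s x ∧ ∀ z, Shared s z → b x ≤ b z := by
  classical
  unfold firstBlock
  rw [Finset.mem_filter, mem_dbl]
  constructor
  · exact fun h => h.2
  · intro h
    refine ⟨?_, h⟩
    have := shared_counts hq h.1
    simp only [occ]
    omega

lemma shared_of_counts {s t : Eqn X A}
    (h : ∀ z, t.1.count (Sum.inl z) = s.1.count (Sum.inl z) ∧
      t.2.count (Sum.inl z) = s.2.count (Sum.inl z)) (x : X) : Shared t x ↔ Shared s x := by
  unfold Shared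
  rw [← List.count_pos_iff, ← List.count_pos_iff, (h x).1, (h x).2, List.count_pos_iff,
    List.count_pos_iff]

lemma reg_step {b : X → ℕ} {D : Finset X} {s s' : Eqn X A} (hI : Inv b s)
    (hD : ∀ x, Shared s x → (∀ z, Shared s z → b x ≤ b z) → x ∈ D)
    (h : Step s s') (hr : Reg s s') :
    DStep D s s' ∧ ∀ z, s'.1.count (Sum.inl z) = s.1.count (Sum.inl z) ∧
      s'.2.count (Sum.inl z) = s.2.count (Sum.inl z) := by
  cases h with
  | cancel a U V => have := hr.1; simp at this
  | replLeft x y U V => have := hr.1; simp [length_psiHat] at this
  | replRight x y U V => have := hr.1; simp [length_psiHat] at this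
  | insLeft x y U V =>
      have h1 := hr.1
      have h2 := hr.2
      simp only [psi_eq_ins, List.length_cons, length_ins, List.length_nil] at h1 h2
      have hU : Sum.inl x ∉ U := List.count_eq_zero.mp (by omega)
      have hV : V.count (Sum.inl x) = 1 := by omega
      have hxs : Shared ((Sum.inl x :: U, y :: V) : Eqn X A) x :=
        ⟨by simp, List.mem_cons_of_mem _ (List.count_pos_iff.mp (by omega))⟩
      have hyx : y ≠ Sum.inl x := by
        rintro rfl
        have := hI.lin x
        simp only [List.count_cons_self] at this
        omega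
      refine ⟨Or.inl ⟨x, hD x hxs (fun z hz => head_min hI hxs hz), y, U, V, hyx, rfl, rfl⟩, ?_⟩
      intro z
      simp only [psi_eq_ins, ins_of_notMem [y] x hU, count_ins_single, true_and]
      by_cases hyz : y = Sum.inl z
      · subst hyz
        rw [if_pos rfl, List.count_cons_self]
        omega
      · rw [if_neg hyz, List.count_cons_of_ne hyz]
        rfl
  | insRight x y U V =>
      have h1 := hr.1
      have h2 := hr.2
      simp only [psi_eq_ins, List.length_cons, length_ins, List.length_nil] at h1 h2
      have hV : Sum.inl y ∉ V := List.count_eq_zero.mp (by omega)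
      have hU : U.count (Sum.inl y) = 1 := by omega
      have hys : Shared ((x :: U, Sum.inl y :: V) : Eqn X A) y :=
        ⟨List.mem_cons_of_mem _ (List.count_pos_iff.mp (by omega)), by simp⟩
      have hyx : x ≠ Sum.inl y := by
        rintro rfl
        have := hI.quad y
        simp only [occ, List.count_cons_self] at this
        omega
      refine ⟨Or.inr ⟨y, hD y hys (fun z hz => head_min' hI hys hz), x, V, U, hyx, rfl, rfl⟩, ?_⟩
      intro z
      simp only [psi_eq_ins, ins_of_notMem [x] y hV, count_ins_single, and_true]
      by_cases hxz : x = Sum.inl z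
      · subst hxz
        rw [if_pos rfl, List.count_cons_self]
        omega
      · rw [if_neg hxz, List.count_cons_of_ne hxz]
        rfl

lemma reg_reach {b : X → ℕ} {s s' : Eqn X A} (hI : Inv b s)
    (h : Relation.ReflTransGen (fun s s' => Step s s' ∧ Reg s s') s s') :
    Relation.ReflTransGen (DStep (firstBlock b s)) s s' ∧ Inv b s' ∧
      ∀ z, s'.1.count (Sum.inl z) = s.1.count (Sum.inl z) ∧
        s'.2.count (Sum.inl z) = s.2.count (Sum.inl z) := by
  induction h with
  | refl => exact ⟨Relation.ReflTransGen.refl, hI, fun _ => ⟨rfl, rfl⟩⟩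
  | tail _ hbc ih =>
      obtain ⟨h1, h2, h3⟩ := ih
      have hsh := shared_of_counts h3
      obtain ⟨h4, h5⟩ := reg_step (D := firstBlock b s) h2 (fun x hx hmin => by
        rw [mem_firstBlock hI.quad]
        exact ⟨(hsh x).mp hx, fun z hz => hmin z ((hsh z).mpr hz)⟩) hbc.1 hbc.2
      exact ⟨h1.tail h4, h2.step hbc.1,
        fun z => ⟨(h5 z).1.trans (h3 z).1, (h5 z).2.trans (h3 z).2⟩⟩

/-- **Theorem.** Let `E` be a quadratic word equation such that every variable occurs at most once
on the right side.  Let `b` split the variables that occur on both sides into blocks such that a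
variable of a smaller block precedes a variable of a larger block on both sides, and every block
has at most `c` elements.  If `v₁` is a vertex of the graph of `E` and `v₂` is reachable from `v₁`,
then there is a path from `v₁` to `v₂` with at most `4 (2c+1)! (|E|+1)^2` edges. -/
theorem result (X A : Type) [DecidableEq X] [DecidableEq A] (c : ℕ) (E : Eqn X A)
    (hE : Quadratic E) (hlin : RightLinear E) (b : X → ℕ) (hb : Blocks b E)
    (hc : ∀ i : ℕ, {x : X | Shared E x ∧ b x = i}.ncard ≤ c)
    (v₁ v₂ : Eqn X A) (h₁ : Reach E v₁) (h₂ : Reach v₁ v₂) :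
    ∃ n ≤ 4 * (2 * c + 1).factorial * (size E + 1) ^ 2, PathLen n v₁ v₂ := by
  classical
  let P : Eqn X A → Prop := fun s => Inv b s ∧ size s ≤ size E ∧ ∀ z, Shared s z → Shared E z
  have hPstep : ∀ s s', P s → Step s s' → P s' := by
    rintro s s' ⟨h1, h2, h3⟩ hst
    exact ⟨h1.step hst, (size_le h1.quad hst).trans h2, fun z hz => h3 z ((stepInv h1 hst).sh z hz)⟩
  have hPE : P E := ⟨⟨hE, hlin, hb⟩, le_rfl, fun _ h => h⟩
  have hP1 : P v₁ := by
    induction h₁ with
    | refl => exact hPE
    | tail _ hbc ih => exact hPstep _ _ (ih (h₂.head hbc)) hbc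
  have hfin : ∀ i, {x : X | Shared E x ∧ b x = i}.Finite := by
    intro i
    refine (Finset.finite_toSet (dbl E)).subset ?_
    rintro x ⟨hx, -⟩
    rw [Finset.mem_coe, mem_dbl]
    have := shared_counts hE hx
    simp only [occ]
    omega
  have hcard : ∀ s, P s → (firstBlock b s).card ≤ c := by
    intro s hs
    rcases (firstBlock b s).eq_empty_or_nonempty with h | ⟨x, hx⟩
    · rw [h]; simp
    · rw [← Set.ncard_coe_finset]
      refine (Set.ncard_le_ncard ?_ (hfin (b x))).trans (hc (b x))
      intro z hz
      rw [Finset.mem_coe] at hz
      rw [mem_firstBlock hs.1.quad] at hx hz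
      exact ⟨hs.2.2 z hz.1, le_antisymm (hz.2 x hx.1) (hx.2 z hz.1)⟩
  obtain ⟨n, hn, hw⟩ := shorten P Reg (fun s => size s + s.2.length)
    (2 * (size E + 1) * (2 * c + 1).factorial) hPstep
    (fun s s' hs hst => Nat.add_le_add (size_le hs.1.quad hst) (stepInv hs.1 hst).len)
    (fun s s' hs hst hne => by
      have h1 := size_le hs.1.quad hst
      have h2 := (stepInv hs.1 hst).len
      rcases Nat.lt_or_ge (size s' + s'.2.length) (size s + s.2.length) with h | h
      · exact h
      · exfalso
        apply hne
        simp only [size] at h1 h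
        exact ⟨by omega, by omega⟩)
    (fun s s' hs hr => by
      obtain ⟨h1, -, -⟩ := reg_reach hs.1 hr
      obtain ⟨S, hS, hcS, hreach⟩ := reach_bound (firstBlock b s) s (fun z hz => by
        rw [mem_firstBlock hs.1.quad] at hz
        have := shared_counts hs.1.quad hz.1
        simp only [occ]
        omega)
      have hN : S.ncard ≤ 2 * (size E + 1) * (2 * c + 1).factorial := by
        refine hcS.trans ?_
        apply Nat.mul_le_mul
        · have := hs.2.1
          omega
        · have := hcard s hs
          exact Nat.factorial_le (by omega)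
      obtain ⟨n, hn, hw⟩ := exists_short_walk S hS _ hN hreach h1
      exact ⟨n, hn, hw.mono (fun a b h => h.step)⟩)
    (2 * size E) v₁ v₂ hP1 (by
      have := hP1.2.1
      simp only [size] at this ⊢
      omega) h₂
  refine ⟨n, ?_, walk_pathLen hw⟩
  have h3 : (2 * size E + 1) * (2 * (size E + 1) * (2 * c + 1).factorial) ≤
      4 * (2 * c + 1).factorial * (size E + 1) ^ 2 := by
    have : 4 * (2 * c + 1).factorial * (size E + 1) ^ 2 =
      (2 * size E + 2) * (2 * (size E + 1) * (2 * c + 1).factorial) := by ring
    rw [this]
    exact Nat.mul_le_mul_right _ (by omega)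
  omega

end Pool.Agent.Results.MP_c8d30a_lc.LinearSide
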